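import Pool.Agent.Lib_MP_1209e6_kd.DS

/-!
# Vanishing of a double power series along sequences
-/

set_option autoImplicit false

open scoped BigOperators Topology
open Filter

namespace Pool.Agent.KDGlue

theorem tendsto_ds {a : ℕ → ℕ → ℂ} {C ρ r : ℝ} (hb : ∀ m n, ‖a m n‖ ≤ C * ρ ^ (m + n))
    (hC : 0 ≤ C) (hρ : 0 ≤ ρ) (hr : ρ * r < 1) {ι : Type} {l : Filter ι}
    {s z : ι → ℂ} {S T : ℂ} (hS : ‖S‖ < r) (hT : ‖T‖ < r)
    (hs : Tendsto s l (𝓝 S)) (hz : Tendsto z l (𝓝 T)) :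
    Tendsto (fun k => ds a (s k) (z k)) l (𝓝 (ds a S T)) := by
  have hr0 : 0 ≤ r := (norm_nonneg _).trans hS.le
  unfold ds
  refine tendsto_tsum_of_dominated_convergence
    (bound := fun p : ℕ × ℕ => C * ((ρ * r) ^ p.1 * (ρ * r) ^ p.2))
    ((summable_geo2 (mul_nonneg hρ hr0) hr).mul_left C) (fun p => ?_) ?_
  · exact ((hs.pow _).mul (hz.pow _)).const_smul _
  · have h1 : ∀ᶠ k in l, ‖s k‖ < r := (hs.norm).eventually (gt_mem_nhds hS)
    have h2 : ∀ᶠ k in l, ‖z k‖ < r := (hz.norm).eventually (gt_mem_nhds hT)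
    filter_upwards [h1, h2] with k hk1 hk2 p
    exact norm_term_le (E := ℂ) hb hC hρ hk1.le hk2.le p.1 p.2

/-- a double series whose first `m` rows vanish -/
theorem ds_shift {a : ℕ → ℕ → ℂ} {C ρ r : ℝ} (hb : ∀ m n, ‖a m n‖ ≤ C * ρ ^ (m + n))
    (hC : 0 ≤ C) (hρ : 0 ≤ ρ) (hr : ρ * r < 1) {s z : ℂ} (hs : ‖s‖ ≤ r) (hz : ‖z‖ ≤ r) (m : ℕ)
    (h0 : ∀ i < m, ∀ n, a i n = 0) :
    ds a s z = s ^ m * ds (fun i n => a (m + i) n) s z := by
  have hsum := summable_ds (E := ℂ) hb hC hρ hr hs hz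
  unfold ds
  rw [← tsum_mul_left]
  have hinj : Function.Injective (fun p : ℕ × ℕ => (m + p.1, p.2)) := by
    rintro ⟨i, n⟩ ⟨j, n'⟩ h
    simp only [Prod.mk.injEq, add_right_inj] at h
    exact Prod.ext h.1 h.2
  have hsupp : Function.support (fun p : ℕ × ℕ => a p.1 p.2 • (s ^ p.1 * z ^ p.2)) ⊆
      Set.range (fun p : ℕ × ℕ => (m + p.1, p.2)) := by
    rintro ⟨i, n⟩ hp
    by_cases hi : i < m
    · exact absurd (by simp only [h0 i hi n, zero_smul]) hp
    · exact ⟨(i - m, n), by simp only; rw [Nat.add_sub_cancel' (not_lt.1 hi)]⟩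
  rw [← hinj.tsum_eq hsupp]
  refine tsum_congr fun p => ?_
  simp only [smul_eq_mul]
  rw [pow_add]; ring

theorem pow_eq_zero_iff_of_pos_aux {s : ℂ} {n : ℕ} (h : s ^ n = 0) : s = 0 := by
  by_contra hs
  exact pow_ne_zero n hs h

/-- one variable: a power series which vanishes near 0 has coefficients zero -/
theorem coeff_zero_one {c : ℕ → ℂ} {C ρ r : ℝ} (hb : ∀ n, ‖c n‖ ≤ C * ρ ^ n)
    (hC : 0 ≤ C) (hρ : 0 ≤ ρ) (hr0 : 0 < r) (hr : ρ * r < 1)
    (h : ∀ T : ℂ, ‖T‖ < r → ∑' n, c n * T ^ n = 0) : ∀ n, c n = 0 := by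
  -- use rows
  have hrow : ∀ m n, ‖(fun m n => if n = 0 then c m else 0 : ℕ → ℕ → ℂ) m n‖ ≤ C * ρ ^ (m + n) := by
    intro m n
    by_cases hn : n = 0
    · simp only [hn, if_true, add_zero]; exact hb m
    · simp only [hn, if_false, norm_zero]; positivity
  have hds : ∀ (b : ℕ → ℂ) (s : ℂ), ds (fun m n => if n = 0 then b m else 0) s 0 =
      ∑' n, b n * s ^ n := by
    intro b s
    unfold ds
    have hinj : Function.Injective (fun m : ℕ => ((m, 0) : ℕ × ℕ)) := by
      intro i j hij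
      exact (Prod.mk.inj hij).1
    have hsupp : Function.support (fun p : ℕ × ℕ =>
        (if p.2 = 0 then b p.1 else 0 : ℂ) • (s ^ p.1 * (0 : ℂ) ^ p.2)) ⊆
        Set.range (fun m : ℕ => ((m, 0) : ℕ × ℕ)) := by
      rintro ⟨i, n⟩ hp
      by_cases hn : n = 0
      · exact ⟨i, by simp only [hn]⟩
      · exact absurd (by simp only [hn, if_false, zero_smul]) hp
    rw [← hinj.tsum_eq hsupp]
    refine tsum_congr fun n => ?_
    simp
  intro n
  induction n using Nat.strong_induction_on with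
  | _ n ih =>
    have hsh : ∀ s : ℂ, ‖s‖ < r → s ≠ 0 → ∑' i, c (n + i) * s ^ i = 0 := by
      intro s hs hs0
      have h1 := ds_shift hrow hC hρ hr hs.le (z := 0) (by simpa using hr0.le) n (by
        intro i hi k
        by_cases hk : k = 0
        · simp only [hk, if_true]; exact ih i hi
        · simp only [hk, if_false])
      rw [hds c s, h s hs] at h1
      have h2 := hds (fun i => c (n + i)) s
      rw [h2] at h1
      rcases mul_eq_zero.1 h1.symm with h3 | h3
      · exact absurd (pow_eq_zero_iff_of_pos_aux h3) hs0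
      · exact h3
    have hb2 : ∀ m k, ‖(fun m k => if k = 0 then c (n + m) else 0 : ℕ → ℕ → ℂ) m k‖ ≤
        (C * ρ ^ n) * ρ ^ (m + k) := by
      intro m k
      by_cases hk : k = 0
      · simp only [hk, if_true, add_zero]
        calc ‖c (n + m)‖ ≤ C * ρ ^ (n + m) := hb _
          _ = C * ρ ^ n * ρ ^ m := by rw [pow_add]; ring
      · simp only [hk, if_false, norm_zero]; positivity
    have hlim := tendsto_ds (l := 𝓝[≠] (0 : ℂ)) hb2 (by positivity) hρ hr (S := 0) (T := 0)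
      (by simpa using hr0) (by simpa using hr0) (s := fun s => s) (z := fun _ => 0)
      (tendsto_id.mono_left nhdsWithin_le_nhds) tendsto_const_nhds
    have hev : ∀ᶠ s in 𝓝[≠] (0 : ℂ),
        ds (fun m k => if k = 0 then c (n + m) else 0) s (0 : ℂ) = 0 := by
      have h1 : ∀ᶠ s in 𝓝[≠] (0 : ℂ), ‖s‖ < r :=
        (continuous_norm.tendsto' 0 0 norm_zero).mono_left nhdsWithin_le_nhds
          |>.eventually (gt_mem_nhds hr0)
      filter_upwards [h1, self_mem_nhdsWithin] with s hs1 hs2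
      rw [hds (fun i => c (n + i)) s]
      exact hsh s hs1 hs2
    have h0 := tendsto_nhds_unique (hlim.congr' hev) tendsto_const_nhds
    rw [hds (fun i => c (n + i)) 0, tsum_eq_single 0] at h0
    · simpa using h0
    · intro i hi
      rw [zero_pow hi, mul_zero]

/-- P9: a double power series which vanishes along sequences `(s_k, z_k) → (0, T)`, `s_k ≠ 0`, for every
small `T`, has only zero coefficients. -/
theorem coeff_zero_of_seq {a : ℕ → ℕ → ℂ} {C ρ r : ℝ} (hb : ∀ m n, ‖a m n‖ ≤ C * ρ ^ (m + n))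
    (hC : 0 ≤ C) (hρ : 0 ≤ ρ) (hr0 : 0 < r) (hr : ρ * r < 1)
    (h : ∀ T : ℂ, ‖T‖ < r → ∃ s z : ℕ → ℂ, Tendsto s atTop (𝓝 0) ∧ Tendsto z atTop (𝓝 T) ∧
      (∀ᶠ k in atTop, s k ≠ 0) ∧ ∀ᶠ k in atTop, ds a (s k) (z k) = 0) :
    ∀ m n, a m n = 0 := by
  intro m
  induction m using Nat.strong_induction_on with
  | _ m ih =>
    have hb2 : ∀ i n, ‖(fun i n => a (m + i) n) i n‖ ≤ (C * ρ ^ m) * ρ ^ (i + n) := by
      intro i n
      calc ‖a (m + i) n‖ ≤ C * ρ ^ (m + i + n) := hb _ _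
        _ = C * ρ ^ m * ρ ^ (i + n) := by rw [add_assoc, pow_add]; ring
    have hT : ∀ T : ℂ, ‖T‖ < r → ∑' n, a m n * T ^ n = 0 := by
      intro T hT
      obtain ⟨s, z, hs, hz, hs0, hds⟩ := h T hT
      have hlim := tendsto_ds hb2 (by positivity) hρ hr (S := 0) (T := T) (by simpa using hr0) hT
        hs hz
      have e1 : ∀ᶠ k in atTop, ‖s k‖ < r := (hs.norm).eventually (gt_mem_nhds (by simpa using hr0))
      have e2 : ∀ᶠ k in atTop, ‖z k‖ < r := (hz.norm).eventually (gt_mem_nhds hT)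
      have hev : ∀ᶠ k in atTop, ds (fun i n => a (m + i) n) (s k) (z k) = 0 := by
        filter_upwards [hs0, hds, e1, e2] with k hk1 hk2 hk3 hk4
        have h1 := ds_shift hb hC hρ hr hk3.le hk4.le m ih
        rw [hk2] at h1
        rcases mul_eq_zero.1 h1.symm with h3 | h3
        · exact absurd (pow_eq_zero_iff_of_pos_aux h3) hk1
        · exact h3
      have h0 := tendsto_nhds_unique (hlim.congr' hev) tendsto_const_nhds
      rw [← h0]
      unfold ds
      have hinj : Function.Injective (fun n : ℕ => ((0, n) : ℕ × ℕ)) := by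
        intro i j hij
        exact (Prod.mk.inj hij).2
      have hsupp : Function.support (fun p : ℕ × ℕ =>
          (a (m + p.1) p.2) • ((0 : ℂ) ^ p.1 * T ^ p.2)) ⊆
          Set.range (fun n : ℕ => ((0, n) : ℕ × ℕ)) := by
        rintro ⟨i, n⟩ hp
        by_cases hi : i = 0
        · exact ⟨n, by simp only [hi]⟩
        · exact absurd (by simp only [zero_pow hi, zero_mul, smul_zero]) hp
      rw [← hinj.tsum_eq hsupp]
      refine tsum_congr fun n => ?_
      simp
    refine coeff_zero_one (C := C * ρ ^ m) (ρ := ρ) (r := r) (fun n => ?_) (by positivity) hρ hr0 hr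
      hT
    calc ‖a m n‖ ≤ C * ρ ^ (m + n) := hb _ _
      _ = C * ρ ^ m * ρ ^ n := by rw [pow_add]; ring

end Pool.Agent.KDGlue
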