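import Mathlib

/-!
# Double power series in a commutative Banach algebra
-/

set_option autoImplicit false

open scoped BigOperators

namespace Pool.Agent.KDGlue

variable {E : Type} [NormedCommRing E] [NormedAlgebra ℂ E] [CompleteSpace E] [NormOneClass E]

/-- the value of the double power series with coefficients `a` -/
noncomputable def ds (a : ℕ → ℕ → ℂ) (x y : E) : E :=
  ∑' p : ℕ × ℕ, a p.1 p.2 • (x ^ p.1 * y ^ p.2)

theorem norm_term_le {a : ℕ → ℕ → ℂ} {C ρ r : ℝ} (hb : ∀ m n, ‖a m n‖ ≤ C * ρ ^ (m + n))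
    (hC : 0 ≤ C) (hρ : 0 ≤ ρ) {x y : E} (hx : ‖x‖ ≤ r) (hy : ‖y‖ ≤ r) (m n : ℕ) :
    ‖a m n • (x ^ m * y ^ n)‖ ≤ C * ((ρ * r) ^ m * (ρ * r) ^ n) := by
  have hr : 0 ≤ r := (norm_nonneg _).trans hx
  have h1 : ‖x ^ m * y ^ n‖ ≤ r ^ m * r ^ n := by
    refine (norm_mul_le _ _).trans ?_
    exact mul_le_mul ((norm_pow_le _ _).trans (pow_le_pow_left₀ (norm_nonneg _) hx _))
      ((norm_pow_le _ _).trans (pow_le_pow_left₀ (norm_nonneg _) hy _)) (norm_nonneg _)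
      (by positivity)
  rw [norm_smul]
  calc ‖a m n‖ * ‖x ^ m * y ^ n‖ ≤ (C * ρ ^ (m + n)) * (r ^ m * r ^ n) :=
        mul_le_mul (hb m n) h1 (norm_nonneg _) (by positivity)
    _ = C * ((ρ * r) ^ m * (ρ * r) ^ n) := by rw [pow_add, mul_pow, mul_pow]; ring

theorem summable_geo2 {t : ℝ} (h0 : 0 ≤ t) (h1 : t < 1) :
    Summable fun p : ℕ × ℕ => t ^ p.1 * t ^ p.2 :=
  (summable_geometric_of_lt_one h0 h1).mul_of_nonneg (summable_geometric_of_lt_one h0 h1)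
    (fun _ => by positivity) (fun _ => by positivity)

theorem summable_norm {a : ℕ → ℕ → ℂ} {C ρ r : ℝ} (hb : ∀ m n, ‖a m n‖ ≤ C * ρ ^ (m + n))
    (hC : 0 ≤ C) (hρ : 0 ≤ ρ) (hr : ρ * r < 1) {x y : E} (hx : ‖x‖ ≤ r) (hy : ‖y‖ ≤ r) :
    Summable fun p : ℕ × ℕ => ‖a p.1 p.2 • (x ^ p.1 * y ^ p.2)‖ :=
  Summable.of_nonneg_of_le (fun _ => norm_nonneg _)
    (fun p => norm_term_le hb hC hρ hx hy p.1 p.2)
    ((summable_geo2 (mul_nonneg hρ ((norm_nonneg _).trans hx)) hr).mul_left C)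

theorem summable_ds {a : ℕ → ℕ → ℂ} {C ρ r : ℝ} (hb : ∀ m n, ‖a m n‖ ≤ C * ρ ^ (m + n))
    (hC : 0 ≤ C) (hρ : 0 ≤ ρ) (hr : ρ * r < 1) {x y : E} (hx : ‖x‖ ≤ r) (hy : ‖y‖ ≤ r) :
    Summable fun p : ℕ × ℕ => a p.1 p.2 • (x ^ p.1 * y ^ p.2) :=
  (summable_norm hb hC hρ hr hx hy).of_norm

/-- continuous homomorphisms commute with double power series -/
theorem map_ds {F : Type} [NormedCommRing F] [NormedAlgebra ℂ F]
    (φ : E →ₐ[ℂ] F) (hφ : Continuous φ) {a : ℕ → ℕ → ℂ} {C ρ r : ℝ}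
    (hb : ∀ m n, ‖a m n‖ ≤ C * ρ ^ (m + n))
    (hC : 0 ≤ C) (hρ : 0 ≤ ρ) (hr : ρ * r < 1) {x y : E} (hx : ‖x‖ ≤ r) (hy : ‖y‖ ≤ r) :
    φ (ds a x y) = ds a (φ x) (φ y) := by
  unfold ds
  have h := (summable_ds hb hC hρ hr hx hy).map_tsum φ.toLinearMap.toAddMonoidHom hφ
  refine Eq.trans h ?_
  refine tsum_congr fun p => ?_
  show φ (a p.1 p.2 • (x ^ p.1 * y ^ p.2)) = _
  rw [map_smul, map_mul, map_pow, map_pow]

theorem norm_pow_sub_le {x x' : E} {r : ℝ} (hx : ‖x‖ ≤ r) (hx' : ‖x'‖ ≤ r) (m : ℕ) :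
    ‖x ^ m - x' ^ m‖ ≤ m * r ^ (m - 1) * ‖x - x'‖ := by
  have hr : 0 ≤ r := (norm_nonneg _).trans hx
  induction m with
  | zero => simp
  | succ m ih =>
    have e : x ^ (m + 1) - x' ^ (m + 1) = x * (x ^ m - x' ^ m) + (x - x') * x' ^ m := by ring
    rw [e]
    refine (norm_add_le _ _).trans ?_
    have h1 : ‖x * (x ^ m - x' ^ m)‖ ≤ r * (m * r ^ (m - 1) * ‖x - x'‖) :=
      (norm_mul_le _ _).trans (mul_le_mul hx ih (norm_nonneg _) hr)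
    have h2 : ‖(x - x') * x' ^ m‖ ≤ ‖x - x'‖ * r ^ m :=
      (norm_mul_le _ _).trans (mul_le_mul_of_nonneg_left
        ((norm_pow_le _ _).trans (pow_le_pow_left₀ (norm_nonneg _) hx' _)) (norm_nonneg _))
    have h3 : r * (m * r ^ (m - 1) * ‖x - x'‖) = m * r ^ m * ‖x - x'‖ := by
      cases m with
      | zero => simp
      | succ k => rw [Nat.add_sub_cancel]; ring
    rw [Nat.add_sub_cancel]
    push_cast
    nlinarith [h1, h2, h3]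

theorem norm_mul_sub_le {x y x' y' : E} {r : ℝ} (hx : ‖x‖ ≤ r) (hy : ‖y‖ ≤ r) (hx' : ‖x'‖ ≤ r)
    (hy' : ‖y'‖ ≤ r) (m n : ℕ) :
    ‖x ^ m * y ^ n - x' ^ m * y' ^ n‖ ≤ (m + n) * r ^ (m + n - 1) * (‖x - x'‖ + ‖y - y'‖) := by
  have hr : 0 ≤ r := (norm_nonneg _).trans hx
  have e : x ^ m * y ^ n - x' ^ m * y' ^ n =
      (x ^ m - x' ^ m) * y ^ n + x' ^ m * (y ^ n - y' ^ n) := by ring
  rw [e]
  refine (norm_add_le _ _).trans ?_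
  have h1 : ‖(x ^ m - x' ^ m) * y ^ n‖ ≤ (m * r ^ (m - 1) * ‖x - x'‖) * r ^ n :=
    (norm_mul_le _ _).trans (mul_le_mul (norm_pow_sub_le hx hx' m)
      ((norm_pow_le _ _).trans (pow_le_pow_left₀ (norm_nonneg _) hy _)) (norm_nonneg _)
      (by positivity))
  have h2 : ‖x' ^ m * (y ^ n - y' ^ n)‖ ≤ r ^ m * (n * r ^ (n - 1) * ‖y - y'‖) :=
    (norm_mul_le _ _).trans (mul_le_mul
      ((norm_pow_le _ _).trans (pow_le_pow_left₀ (norm_nonneg _) hx' _))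
      (norm_pow_sub_le hy hy' n) (norm_nonneg _) (by positivity))
  have h3 : (m * r ^ (m - 1) * ‖x - x'‖) * r ^ n = m * r ^ (m + n - 1) * ‖x - x'‖ := by
    cases m with
    | zero => simp
    | succ k =>
      have : k + 1 + n - 1 = k + n := by omega
      rw [Nat.add_sub_cancel, this, pow_add]; ring
  have h4 : r ^ m * (n * r ^ (n - 1) * ‖y - y'‖) = n * r ^ (m + n - 1) * ‖y - y'‖ := by
    cases n with
    | zero => simp
    | succ k =>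
      have : m + (k + 1) - 1 = m + k := by omega
      rw [Nat.add_sub_cancel, this, pow_add]; ring
  have h5 : 0 ≤ r ^ (m + n - 1) := by positivity
  have h6 := mul_nonneg (mul_nonneg (Nat.cast_nonneg n : (0:ℝ) ≤ n) h5) (norm_nonneg (x - x'))
  have h7 := mul_nonneg (mul_nonneg (Nat.cast_nonneg m : (0:ℝ) ≤ m) h5) (norm_nonneg (y - y'))
  nlinarith [h1, h2, h3, h4, h6, h7]

/-- the constant of the Lipschitz estimate -/
noncomputable def lipK : ℝ := ∑' p : ℕ × ℕ, ((p.1 : ℝ) + p.2) * (1 / 2) ^ (p.1 + p.2)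

theorem summable_lipK : Summable fun p : ℕ × ℕ => ((p.1 : ℝ) + p.2) * (1 / 2 : ℝ) ^ (p.1 + p.2) := by
  have h1 : Summable fun n : ℕ => (n : ℝ) * (1 / 2 : ℝ) ^ n := by
    have := summable_pow_mul_geometric_of_norm_lt_one 1 (r := (1 / 2 : ℝ)) (by norm_num)
    simpa using this
  have h0 : Summable fun n : ℕ => (1 / 2 : ℝ) ^ n :=
    summable_geometric_of_lt_one (by norm_num) (by norm_num)
  have h2 := h1.mul_of_nonneg h0 (fun _ => by positivity) (fun _ => by positivity)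
  have h3 := h0.mul_of_nonneg h1 (fun _ => by positivity) (fun _ => by positivity)
  refine (h2.add h3).congr fun p => ?_
  rw [pow_add]; ring

theorem lipK_nonneg : 0 ≤ lipK := tsum_nonneg fun p => by positivity

/-- a double power series without terms of order 0 and 1 has small Lipschitz constant near 0 -/
theorem lip_ds {a : ℕ → ℕ → ℂ} {C ρ r : ℝ} (hb : ∀ m n, ‖a m n‖ ≤ C * ρ ^ (m + n))
    (h2 : ∀ m n, m + n < 2 → a m n = 0)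
    (hC : 0 ≤ C) (hρ : 0 ≤ ρ) (hr : ρ * r ≤ 1 / 2) {x y x' y' : E} (hx : ‖x‖ ≤ r) (hy : ‖y‖ ≤ r)
    (hx' : ‖x'‖ ≤ r) (hy' : ‖y'‖ ≤ r) :
    ‖ds a x y - ds a x' y'‖ ≤ (4 * C * ρ ^ 2 * lipK) * r * (‖x - x'‖ + ‖y - y'‖) := by
  have hr0 : 0 ≤ r := (norm_nonneg _).trans hx
  have hlt : ρ * r < 1 := by linarith
  have hs1 := summable_ds hb hC hρ hlt hx hy
  have hs2 := summable_ds hb hC hρ hlt hx' hy'
  unfold ds
  rw [← hs1.tsum_sub hs2]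
  have hterm : ∀ p : ℕ × ℕ, ‖a p.1 p.2 • (x ^ p.1 * y ^ p.2) - a p.1 p.2 • (x' ^ p.1 * y' ^ p.2)‖ ≤
      (4 * C * ρ ^ 2 * r * (‖x - x'‖ + ‖y - y'‖)) * (((p.1 : ℝ) + p.2) * (1 / 2) ^ (p.1 + p.2)) := by
    rintro ⟨m, n⟩
    by_cases hmn : m + n < 2
    · simp only [h2 m n hmn, zero_smul, sub_zero, norm_zero]
      positivity
    · rw [← smul_sub, norm_smul]
      have h1 := norm_mul_sub_le hx hy hx' hy' m n
      obtain ⟨k, hk⟩ : ∃ k, m + n = k + 2 := ⟨m + n - 2, by omega⟩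
      have hk1 : m + n - 1 = k + 1 := by omega
      have e1 : ρ ^ (k + 2) * r ^ (k + 1) = ρ ^ 2 * r * (ρ * r) ^ k := by
        rw [mul_pow]; ring
      have e2 : (ρ * r) ^ k ≤ 4 * (1 / 2) ^ (k + 2) := by
        calc (ρ * r) ^ k ≤ (1 / 2) ^ k := pow_le_pow_left₀ (by positivity) hr k
          _ = 4 * (1 / 2) ^ (k + 2) := by rw [pow_add]; ring
      have hbk := hb m n
      rw [hk] at hbk
      calc ‖a m n‖ * ‖x ^ m * y ^ n - x' ^ m * y' ^ n‖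
          ≤ (C * ρ ^ (k + 2)) * (((m : ℝ) + n) * r ^ (m + n - 1) * (‖x - x'‖ + ‖y - y'‖)) :=
            mul_le_mul hbk h1 (norm_nonneg _) (by positivity)
        _ = (C * ((m : ℝ) + n) * (‖x - x'‖ + ‖y - y'‖)) * (ρ ^ (k + 2) * r ^ (k + 1)) := by
            rw [hk1]; ring
        _ = (C * ((m : ℝ) + n) * (‖x - x'‖ + ‖y - y'‖) * (ρ ^ 2 * r)) * (ρ * r) ^ k := by
            rw [e1]; ring
        _ ≤ (C * ((m : ℝ) + n) * (‖x - x'‖ + ‖y - y'‖) * (ρ ^ 2 * r)) * (4 * (1 / 2) ^ (k + 2)) :=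
            mul_le_mul_of_nonneg_left e2 (by positivity)
        _ = _ := by simp only; rw [hk]; ring
  have hsum : Summable fun p : ℕ × ℕ => (4 * C * ρ ^ 2 * r * (‖x - x'‖ + ‖y - y'‖)) *
      (((p.1 : ℝ) + p.2) * (1 / 2 : ℝ) ^ (p.1 + p.2)) := summable_lipK.mul_left _
  refine (norm_tsum_le_tsum_norm (Summable.of_nonneg_of_le (fun _ => norm_nonneg _) hterm
    hsum)).trans ?_
  refine (Summable.tsum_le_tsum hterm (Summable.of_nonneg_of_le (fun _ => norm_nonneg _) hterm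
    hsum) hsum).trans ?_
  rw [tsum_mul_left]
  apply le_of_eq
  unfold lipK
  ring

/-- size near 0 -/
theorem norm_ds_le {a : ℕ → ℕ → ℂ} {C ρ r : ℝ} (hb : ∀ m n, ‖a m n‖ ≤ C * ρ ^ (m + n))
    (h2 : ∀ m n, m + n < 2 → a m n = 0)
    (hC : 0 ≤ C) (hρ : 0 ≤ ρ) (hr : ρ * r ≤ 1 / 2) {x y : E} (hx : ‖x‖ ≤ r) (hy : ‖y‖ ≤ r) :
    ‖ds a x y‖ ≤ (4 * C * ρ ^ 2 * lipK) * r * (‖x‖ + ‖y‖) := by
  have hr0 : 0 ≤ r := (norm_nonneg _).trans hx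
  have h0 : ds a (0 : E) 0 = 0 := by
    unfold ds
    have hz : ∀ p : ℕ × ℕ, a p.1 p.2 • ((0 : E) ^ p.1 * (0 : E) ^ p.2) = 0 := by
      rintro ⟨m, n⟩
      by_cases hmn : m + n < 2
      · simp only [h2 m n hmn, zero_smul]
      · have : m ≠ 0 ∨ n ≠ 0 := by omega
        rcases this with h | h
        · simp only [zero_pow h, zero_mul, smul_zero]
        · simp only [zero_pow h, mul_zero, smul_zero]
    rw [tsum_congr hz, tsum_zero]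
  have := lip_ds (E := E) hb h2 hC hρ hr hx hy (x' := 0) (y' := 0) (by simpa using hr0)
    (by simpa using hr0)
  rwa [h0, sub_zero, sub_zero, sub_zero] at this

/-- The fixed point of the gluing equations. -/
theorem exists_fix (Φ₁ Φ₂ : E → E → E → E → E) {K R G : ℝ} (hK : 0 ≤ K) (hR : 0 < R)
    (h01 : Φ₁ 0 0 0 0 = 0) (h02 : Φ₂ 0 0 0 0 = 0)
    (hL1 : ∀ r, r ≤ R → ∀ a b c d a' b' c' d' : E, ‖a‖ ≤ r → ‖b‖ ≤ r → ‖c‖ ≤ r → ‖d‖ ≤ r →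
      ‖a'‖ ≤ r → ‖b'‖ ≤ r → ‖c'‖ ≤ r → ‖d'‖ ≤ r →
      ‖Φ₁ a b c d - Φ₁ a' b' c' d'‖ ≤ K * r * (‖a - a'‖ + ‖b - b'‖ + ‖c - c'‖ + ‖d - d'‖))
    (hL2 : ∀ r, r ≤ R → ∀ a b c d a' b' c' d' : E, ‖a‖ ≤ r → ‖b‖ ≤ r → ‖c‖ ≤ r → ‖d‖ ≤ r →
      ‖a'‖ ≤ r → ‖b'‖ ≤ r → ‖c'‖ ≤ r → ‖d'‖ ≤ r →
      ‖Φ₂ a b c d - Φ₂ a' b' c' d'‖ ≤ K * r * (‖a - a'‖ + ‖b - b'‖ + ‖c - c'‖ + ‖d - d'‖))
    (p q : E →L[ℂ] E) (hp : ∀ f, ‖p f‖ ≤ ‖f‖) (hq : ∀ f, ‖q f‖ ≤ ‖f‖)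
    (c g : E) (hG : 0 < G) (hc : ‖c‖ ≤ G) (hg : ‖g‖ ≤ G) :
    ∃ η₀ : ℝ, 0 < η₀ ∧ ∀ η : ℂ, ‖η‖ ≤ η₀ → ∃ A B : E,
      ‖A‖ ≤ G * ‖η‖ ∧ ‖B‖ ≤ G * ‖η‖ ∧
      ‖A‖ ≤ 16 * K * G ^ 2 * ‖η‖ ^ 2 ∧ ‖B‖ ≤ 16 * K * G ^ 2 * ‖η‖ ^ 2 ∧
      A = Φ₁ (η • c + p A) (η • g + p B) (η • g - q B) (η • c - q A) ∧
      B = Φ₂ (η • c + p A) (η • g + p B) (η • g - q B) (η • c - q A) := by
  refine ⟨min (1 / (16 * (K + 1) * G)) (R / (2 * G)), lt_min (by positivity) (by positivity), ?_⟩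
  intro η hη
  have hη1 : ‖η‖ ≤ 1 / (16 * (K + 1) * G) := hη.trans (min_le_left _ _)
  have hη2 : ‖η‖ ≤ R / (2 * G) := hη.trans (min_le_right _ _)
  set t : ℝ := G * ‖η‖ with ht
  have ht0 : 0 ≤ t := by positivity
  have hKt : 16 * (K + 1) * t ≤ 1 := by
    rw [le_div_iff₀ (by positivity)] at hη1
    rw [ht]; nlinarith
  have hrR : 2 * t ≤ R := by
    rw [le_div_iff₀ (by positivity)] at hη2
    rw [ht]; nlinarith
  have hb1 : ∀ f : E, ‖f‖ ≤ t → ‖η • c + p f‖ ≤ 2 * t := fun f hf => by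
    have h1 : ‖η • c‖ ≤ t := by
      rw [norm_smul, ht, mul_comm]; exact mul_le_mul_of_nonneg_right hc (norm_nonneg _)
    linarith [norm_add_le (η • c) (p f), hp f]
  have hb2 : ∀ f : E, ‖f‖ ≤ t → ‖η • g + p f‖ ≤ 2 * t := fun f hf => by
    have h1 : ‖η • g‖ ≤ t := by
      rw [norm_smul, ht, mul_comm]; exact mul_le_mul_of_nonneg_right hg (norm_nonneg _)
    linarith [norm_add_le (η • g) (p f), hp f]
  have hb3 : ∀ f : E, ‖f‖ ≤ t → ‖η • g - q f‖ ≤ 2 * t := fun f hf => by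
    have h1 : ‖η • g‖ ≤ t := by
      rw [norm_smul, ht, mul_comm]; exact mul_le_mul_of_nonneg_right hg (norm_nonneg _)
    linarith [norm_sub_le (η • g) (q f), hq f]
  have hb4 : ∀ f : E, ‖f‖ ≤ t → ‖η • c - q f‖ ≤ 2 * t := fun f hf => by
    have h1 : ‖η • c‖ ≤ t := by
      rw [norm_smul, ht, mul_comm]; exact mul_le_mul_of_nonneg_right hc (norm_nonneg _)
    linarith [norm_sub_le (η • c) (q f), hq f]
  -- size of the values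
  have hsz : ∀ Φ : E → E → E → E → E, Φ 0 0 0 0 = 0 →
      (∀ r, r ≤ R → ∀ a b c d a' b' c' d' : E, ‖a‖ ≤ r → ‖b‖ ≤ r → ‖c‖ ≤ r → ‖d‖ ≤ r →
      ‖a'‖ ≤ r → ‖b'‖ ≤ r → ‖c'‖ ≤ r → ‖d'‖ ≤ r →
      ‖Φ a b c d - Φ a' b' c' d'‖ ≤ K * r * (‖a - a'‖ + ‖b - b'‖ + ‖c - c'‖ + ‖d - d'‖)) →
      ∀ A B : E, ‖A‖ ≤ t → ‖B‖ ≤ t →
      ‖Φ (η • c + p A) (η • g + p B) (η • g - q B) (η • c - q A)‖ ≤ 16 * K * t ^ 2 := by
    intro Φ h0 hL A B hA hB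
    have h := hL (2 * t) hrR _ _ _ _ 0 0 0 0 (hb1 A hA) (hb2 B hB) (hb3 B hB) (hb4 A hA)
      (by simpa using ht0) (by simpa using ht0) (by simpa using ht0) (by simpa using ht0)
    rw [h0] at h
    simp only [sub_zero] at h
    have h5 : ‖η • c + p A‖ + ‖η • g + p B‖ + ‖η • g - q B‖ + ‖η • c - q A‖ ≤ 8 * t := by
      linarith [hb1 A hA, hb2 B hB, hb3 B hB, hb4 A hA]
    calc _ ≤ _ := h
      _ ≤ K * (2 * t) * (8 * t) := mul_le_mul_of_nonneg_left h5 (by positivity)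
      _ = 16 * K * t ^ 2 := by ring
  have hlp : ∀ Φ : E → E → E → E → E,
      (∀ r, r ≤ R → ∀ a b c d a' b' c' d' : E, ‖a‖ ≤ r → ‖b‖ ≤ r → ‖c‖ ≤ r → ‖d‖ ≤ r →
      ‖a'‖ ≤ r → ‖b'‖ ≤ r → ‖c'‖ ≤ r → ‖d'‖ ≤ r →
      ‖Φ a b c d - Φ a' b' c' d'‖ ≤ K * r * (‖a - a'‖ + ‖b - b'‖ + ‖c - c'‖ + ‖d - d'‖)) →
      ∀ A B A' B' : E, ‖A‖ ≤ t → ‖B‖ ≤ t → ‖A'‖ ≤ t → ‖B'‖ ≤ t →
      ‖Φ (η • c + p A) (η • g + p B) (η • g - q B) (η • c - q A) -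
        Φ (η • c + p A') (η • g + p B') (η • g - q B') (η • c - q A')‖ ≤
        1 / 2 * max ‖A - A'‖ ‖B - B'‖ := by
    intro Φ hL A B A' B' hA hB hA' hB'
    have h := hL (2 * t) hrR _ _ _ _ _ _ _ _ (hb1 A hA) (hb2 B hB) (hb3 B hB) (hb4 A hA)
      (hb1 A' hA') (hb2 B' hB') (hb3 B' hB') (hb4 A' hA')
    have e1 : ‖(η • c + p A) - (η • c + p A')‖ ≤ max ‖A - A'‖ ‖B - B'‖ := by
      rw [add_sub_add_left_eq_sub, ← map_sub]
      exact (hp _).trans (le_max_left _ _)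
    have e2 : ‖(η • g + p B) - (η • g + p B')‖ ≤ max ‖A - A'‖ ‖B - B'‖ := by
      rw [add_sub_add_left_eq_sub, ← map_sub]
      exact (hp _).trans (le_max_right _ _)
    have e3 : ‖(η • g - q B) - (η • g - q B')‖ ≤ max ‖A - A'‖ ‖B - B'‖ := by
      rw [sub_sub_sub_cancel_left, ← map_sub, ]
      refine (hq _).trans ?_
      rw [norm_sub_rev]
      exact le_max_right _ _
    have e4 : ‖(η • c - q A) - (η • c - q A')‖ ≤ max ‖A - A'‖ ‖B - B'‖ := by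
      rw [sub_sub_sub_cancel_left, ← map_sub]
      refine (hq _).trans ?_
      rw [norm_sub_rev]
      exact le_max_left _ _
    have hM : 0 ≤ max ‖A - A'‖ ‖B - B'‖ := (norm_nonneg _).trans (le_max_left _ _)
    have hKt2 : K * (2 * t) * 4 ≤ 1 / 2 := by nlinarith
    calc _ ≤ _ := h
      _ ≤ K * (2 * t) * (4 * max ‖A - A'‖ ‖B - B'‖) :=
          mul_le_mul_of_nonneg_left (by linarith) (by positivity)
      _ = (K * (2 * t) * 4) * max ‖A - A'‖ ‖B - B'‖ := by ring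
      _ ≤ _ := mul_le_mul_of_nonneg_right hKt2 hM
  set T : E × E → E × E := fun u =>
    (Φ₁ (η • c + p u.1) (η • g + p u.2) (η • g - q u.2) (η • c - q u.1),
     Φ₂ (η • c + p u.1) (η • g + p u.2) (η • g - q u.2) (η • c - q u.1)) with hT
  have hsmall : 16 * K * t ^ 2 ≤ t := by nlinarith
  have hball : ∀ u : E × E, u ∈ Metric.closedBall (0 : E × E) t ↔ ‖u.1‖ ≤ t ∧ ‖u.2‖ ≤ t := by
    intro u
    rw [mem_closedBall_zero_iff, Prod.norm_def, max_le_iff]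
  have hmaps : Set.MapsTo T (Metric.closedBall 0 t) (Metric.closedBall 0 t) := by
    intro u hu
    rw [hball] at hu ⊢
    exact ⟨(hsz Φ₁ h01 hL1 _ _ hu.1 hu.2).trans hsmall, (hsz Φ₂ h02 hL2 _ _ hu.1 hu.2).trans hsmall⟩
  have hcomp : IsComplete (Metric.closedBall (0 : E × E) t) :=
    Metric.isClosed_closedBall.isComplete
  have hCW : ContractingWith (1 / 2 : NNReal) (hmaps.restrict T _ _) := by
    refine ⟨by rw [← NNReal.coe_lt_coe]; norm_num, ?_⟩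
    refine LipschitzWith.of_dist_le_mul fun u v => ?_
    have hu := (hball u.1).1 u.2
    have hv := (hball v.1).1 v.2
    rw [Subtype.dist_eq, Subtype.dist_eq, dist_eq_norm, dist_eq_norm, Prod.norm_def,
      Prod.norm_def]
    have h1 := hlp Φ₁ hL1 _ _ _ _ hu.1 hu.2 hv.1 hv.2
    have h2 := hlp Φ₂ hL2 _ _ _ _ hu.1 hu.2 hv.1 hv.2
    have hh : ((1 / 2 : NNReal) : ℝ) = 1 / 2 := by norm_num
    rw [hh]
    exact max_le h1 h2
  obtain ⟨u, hu, hfix, -⟩ := hCW.exists_fixedPoint' hcomp hmaps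
    (Metric.mem_closedBall_self ht0) (edist_ne_top _ _)
  have hu2 := (hball u).1 hu
  have f1 : Φ₁ (η • c + p u.1) (η • g + p u.2) (η • g - q u.2) (η • c - q u.1) = u.1 :=
    congrArg Prod.fst hfix
  have f2 : Φ₂ (η • c + p u.1) (η • g + p u.2) (η • g - q u.2) (η • c - q u.1) = u.2 :=
    congrArg Prod.snd hfix
  refine ⟨u.1, u.2, hu2.1, hu2.2, ?_, ?_, f1.symm, f2.symm⟩
  · have := hsz Φ₁ h01 hL1 _ _ hu2.1 hu2.2
    rw [f1] at this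
    calc ‖u.1‖ ≤ 16 * K * t ^ 2 := this
      _ = 16 * K * G ^ 2 * ‖η‖ ^ 2 := by rw [ht]; ring
  · have := hsz Φ₂ h02 hL2 _ _ hu2.1 hu2.2
    rw [f2] at this
    calc ‖u.2‖ ≤ 16 * K * t ^ 2 := this
      _ = 16 * K * G ^ 2 * ‖η‖ ^ 2 := by rw [ht]; ring

end Pool.Agent.KDGlue
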