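import Pool.Agent.Lib_MP_1209e6_kd.Dens
import Pool.Agent.Lib_MP_1858fb_w.Wiener

/-!
# The sequences `zeta_k` of the density argument, values of Laurent tails at infinity
-/

set_option autoImplicit false

open scoped BigOperators Topology
open Filter

namespace Pool.Agent.KDGlue

open Pool.Agent.Lib_MP_1858fb_w Pool.Agent.Lib_MP_1858fb_w.W

theorem zpow_bound {r₁ r₂ : ℝ} (h₁ : 0 < r₁) (h₂ : 0 < r₂) {t : ℂ} (ht : r₁ ≤ ‖t‖) {k : ℤ}
    (hk : k < 0) : ‖t ^ k‖ ≤ (Wt.ann r₁ r₂ h₁ h₂).w k := by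
  show ‖t ^ k‖ ≤ max (r₁ ^ k) (r₂ ^ k)
  obtain ⟨n, hn⟩ := Int.eq_ofNat_of_zero_le (neg_nonneg.2 hk.le)
  have hk2 : k = -(n : ℤ) := by
    have : -k = (n : ℤ) := hn
    omega
  refine le_trans ?_ (le_max_left _ _)
  rw [norm_zpow, hk2, zpow_neg, zpow_neg, zpow_natCast, zpow_natCast]
  exact inv_anti₀ (pow_pos h₁ n) (pow_le_pow_left₀ h₁.le ht n)

theorem tendsto_zpow_neg {k : ℤ} (hk : k < 0) :
    Tendsto (fun t : ℂ => t ^ k) (Bornology.cobounded ℂ) (𝓝 0) := by
  obtain ⟨n, hn⟩ := Int.eq_ofNat_of_zero_le (neg_nonneg.2 hk.le)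
  have hk2 : k = -(n : ℤ) := by
    have : -k = (n : ℤ) := hn
    omega
  have hn0 : n ≠ 0 := by rintro rfl; simp at hk2; omega
  have h1 : Tendsto (fun t : ℂ => (t⁻¹) ^ n) (Bornology.cobounded ℂ) (𝓝 (0 ^ n)) :=
    (tendsto_inv₀_cobounded (α := ℂ)).pow n
  rw [zero_pow hn0] at h1
  refine h1.congr fun t => ?_
  rw [hk2, zpow_neg, zpow_natCast, inv_pow]

/-- an element with negative exponents tends to 0 at infinity -/
theorem tendsto_val {r₁ r₂ : ℝ} (h₁ : 0 < r₁) (h₂ : 0 < r₂) {f : W (Wt.ann r₁ r₂ h₁ h₂)}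
    (hf : Supp (Set.Iio 0) f) : Tendsto (fun t => val t f) (Bornology.cobounded ℂ) (𝓝 0) := by
  have h0 : (0 : ℂ) = ∑' _ : ℤ, (0 : ℂ) := by simp
  rw [h0]
  unfold val
  refine tendsto_tsum_of_dominated_convergence (bound := fun k => ‖f.co k‖ *
    (Wt.ann r₁ r₂ h₁ h₂).w k) f.summ (fun k => ?_) ?_
  · by_cases hk : k < 0
    · simpa using (tendsto_zpow_neg hk).const_mul (f.co k)
    · have : f.co k = 0 := hf k (fun h => hk h)
      simp only [this, zero_mul]
      exact tendsto_const_nhds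
  · have h1 : ∀ᶠ t in Bornology.cobounded ℂ, r₁ ≤ ‖t‖ :=
      (tendsto_norm_cobounded_atTop (E := ℂ)).eventually_ge_atTop r₁
    filter_upwards [h1] with t ht k
    by_cases hk : k < 0
    · rw [norm_mul]
      exact mul_le_mul_of_nonneg_left (zpow_bound h₁ h₂ ht hk) (norm_nonneg _)
    · have : f.co k = 0 := hf k (fun h => hk h)
      rw [this, zero_mul, norm_zero, zero_mul]

/-- the first coefficient at infinity -/
theorem tendsto_mul_val {r₁ r₂ : ℝ} (h₁ : 0 < r₁) (h₂ : 0 < r₂) {f : W (Wt.ann r₁ r₂ h₁ h₂)}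
    (hf : Supp (Set.Iio 0) f) :
    Tendsto (fun t => t * val t f) (Bornology.cobounded ℂ) (𝓝 (f.co (-1))) := by
  -- `t * f = co (-1) + g` with `g` of negative exponents
  set g : W (Wt.ann r₁ r₂ h₁ h₂) := W.mono _ 1 1 * f - W.mono _ 0 (f.co (-1)) with hg
  have hgc : ∀ k, g.co k = f.co (k - 1) - if k = 0 then f.co (-1) else 0 := by
    intro k
    rw [hg, co_sub, co_mono_mul, co_mono, one_mul]
  have hgs : Supp (Set.Iio 0) g := by
    intro k hk
    rw [hgc]
    by_cases hk0 : k = 0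
    · subst hk0; simp
    · rw [if_neg hk0, sub_zero]
      have hk' : ¬ k < 0 := hk
      exact hf _ (fun h => hk' (by have : k - 1 < 0 := h; omega))
  have h2 := tendsto_val h₁ h₂ hgs
  have h3 : ∀ᶠ t in Bornology.cobounded ℂ, r₁ ≤ ‖t‖ :=
    (tendsto_norm_cobounded_atTop (E := ℂ)).eventually_ge_atTop r₁
  have h4 : ∀ᶠ t in Bornology.cobounded ℂ, val t g + f.co (-1) = t * val t f := by
    filter_upwards [h3] with t ht
    have ht0 : t ≠ 0 := by
      rintro rfl
      rw [norm_zero] at ht; linarith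
    have hsf := summ_val (ω := Wt.ann r₁ r₂ h₁ h₂) (S := Set.Iio 0) (t := t)
      (fun i hi => zpow_bound h₁ h₂ ht hi) hf
    have hsg := summ_val (ω := Wt.ann r₁ r₂ h₁ h₂) (S := Set.Iio 0) (t := t)
      (fun i hi => zpow_bound h₁ h₂ ht hi) hgs
    unfold val
    have hs1 : Summable fun k : ℤ => f.co (k - 1) * t ^ k := by
      have := ((Equiv.subRight (1 : ℤ)).summable_iff.2 hsf.of_norm).mul_left t
      refine this.congr fun k => ?_
      simp only [Function.comp, Equiv.subRight_apply]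
      rw [zpow_sub₀ ht0, zpow_one]
      field_simp
    have e1 : t * ∑' k : ℤ, f.co k * t ^ k = ∑' k : ℤ, f.co (k - 1) * t ^ k := by
      rw [← tsum_mul_left, ← (Equiv.subRight (1 : ℤ)).tsum_eq]
      refine tsum_congr fun k => ?_
      simp only [Equiv.subRight_apply]
      rw [zpow_sub₀ ht0, zpow_one]
      field_simp
    have hs2 : Summable fun k : ℤ => (if k = 0 then f.co (-1) else 0) * t ^ k := by
      refine summable_of_ne_finset_zero (s := {0}) fun k hk => ?_
      rw [Finset.mem_singleton] at hk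
      rw [if_neg hk, zero_mul]
    have e2 : ∑' k : ℤ, (if k = 0 then f.co (-1) else 0) * t ^ k = f.co (-1) := by
      rw [tsum_eq_single 0]
      · simp
      · intro k hk
        rw [if_neg hk, zero_mul]
    rw [e1]
    have e3 : ∑' k : ℤ, g.co k * t ^ k =
        ∑' k : ℤ, f.co (k - 1) * t ^ k - ∑' k : ℤ, (if k = 0 then f.co (-1) else 0) * t ^ k := by
      rw [← hs1.tsum_sub hs2]
      refine tsum_congr fun k => ?_
      rw [hgc]; ring
    rw [e3, e2]; ring
  have h5 := (h2.add_const (f.co (-1))).congr' h4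
  rwa [zero_add] at h5

/-- the points `zeta_k` -/
noncomputable def zk (η T : ℂ) (k : ℕ) : ℂ := Complex.log (1 + T / η) + k * (2 * Real.pi * Complex.I)

theorem exp_zk {η T : ℂ} (hη : η ≠ 0) (hT : T ≠ -η) (k : ℕ) :
    η * (Complex.exp (zk η T k) - 1) = T := by
  have h1 : 1 + T / η ≠ 0 := by
    intro h
    apply hT
    field_simp at h
    linear_combination h
  unfold zk
  rw [Complex.exp_add, Complex.exp_log h1, Complex.exp_nat_mul_two_pi_mul_I, mul_one]
  field_simp
  ring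

theorem tendsto_zk (η T : ℂ) : Tendsto (zk η T) atTop (Bornology.cobounded ℂ) := by
  rw [← tendsto_norm_atTop_iff_cobounded]
  have h1 : ∀ k : ℕ, (k : ℝ) * (2 * Real.pi) - ‖Complex.log (1 + T / η)‖ ≤ ‖zk η T k‖ := by
    intro k
    unfold zk
    have h2 : ‖(k : ℂ) * (2 * Real.pi * Complex.I)‖ = k * (2 * Real.pi) := by
      rw [norm_mul, norm_mul, norm_mul, Complex.norm_I, Complex.norm_natCast, mul_one,
        Complex.norm_real, Real.norm_of_nonneg Real.pi_pos.le]
      simp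
    have h3 := norm_sub_norm_le ((k : ℂ) * (2 * Real.pi * Complex.I)) (-Complex.log (1 + T / η))
    rw [sub_neg_eq_add, norm_neg, h2,
      add_comm ((k : ℂ) * (2 * Real.pi * Complex.I)) (Complex.log (1 + T / η))] at h3
    linarith
  refine tendsto_atTop_mono h1 ?_
  refine tendsto_atTop_add_const_right _ _ ?_
  exact (tendsto_natCast_atTop_atTop).atTop_mul_const (by positivity)

/-- P9, second half: `s = σ`, `z = η (e^ζ - 1) + τ` along `zk`. -/
theorem seq_of {η T L : ℂ} (hη : η ≠ 0) (hT : T ≠ -η) {σ τ : ℂ → ℂ}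
    (hσ : Tendsto (fun t => t * σ t) (Bornology.cobounded ℂ) (𝓝 L)) (hL : L ≠ 0)
    (hτ : Tendsto τ (Bornology.cobounded ℂ) (𝓝 0)) :
    Tendsto (fun k => σ (zk η T k)) atTop (𝓝 0) ∧
    Tendsto (fun k => η * (Complex.exp (zk η T k) - 1) + τ (zk η T k)) atTop (𝓝 T) ∧
    ∀ᶠ k in atTop, σ (zk η T k) ≠ 0 := by
  have hz := tendsto_zk η T
  refine ⟨?_, ?_, ?_⟩
  · have h1 : Tendsto (fun t : ℂ => t⁻¹ * (t * σ t)) (Bornology.cobounded ℂ) (𝓝 (0 * L)) :=
      (tendsto_inv₀_cobounded (α := ℂ)).mul hσ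
    rw [zero_mul] at h1
    refine (h1.comp hz).congr' ?_
    have h2 : ∀ᶠ t in Bornology.cobounded ℂ, t⁻¹ * (t * σ t) = σ t := by
      have h3 : ∀ᶠ t in Bornology.cobounded ℂ, (1 : ℝ) ≤ ‖t‖ :=
        (tendsto_norm_cobounded_atTop (E := ℂ)).eventually_ge_atTop 1
      filter_upwards [h3] with t ht
      have ht0 : t ≠ 0 := by
        rintro rfl
        rw [norm_zero] at ht; linarith
      field_simp
    exact hz.eventually h2
  · have h1 : Tendsto (fun k => T + τ (zk η T k)) atTop (𝓝 (T + 0)) :=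
      tendsto_const_nhds.add (hτ.comp hz)
    rw [add_zero] at h1
    refine h1.congr fun k => ?_
    rw [exp_zk hη hT]
  · have h1 := (hσ.comp hz).eventually_ne hL
    filter_upwards [h1] with k hk h0
    apply hk
    simp only [Function.comp, h0, mul_zero]

end Pool.Agent.KDGlue
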