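import Pool.Agent.Lib_MP_1209e6_kd.DS

/-!
# A double power series with zeros accumulating at a whole disc vanishes
-/

set_option autoImplicit false

open Filter Topology

namespace Pool.Agent.KDGlue

/-- partial shift in the first variable -/
theorem ds_shift {a : ℕ → ℕ → ℂ} {C ρ r : ℝ} (hb : ∀ m n, ‖a m n‖ ≤ C * ρ ^ (m + n))
    (hC : 0 ≤ C) (hρ : 0 ≤ ρ) (hr : ρ * r < 1) (i : ℕ) (ha : ∀ m n, m < i → a m n = 0)
    {x y : ℂ} (hx : ‖x‖ ≤ r) (hy : ‖y‖ ≤ r) :
    ds a x y = x ^ i * ds (fun m n => a (m + i) n) x y := by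
  unfold ds
  rw [← tsum_mul_left]
  have hinj : Function.Injective fun p : ℕ × ℕ => ((p.1 + i, p.2) : ℕ × ℕ) := by
    rintro ⟨m, n⟩ ⟨m', n'⟩ h
    simp only [Prod.mk.injEq] at h
    ext <;> simp <;> omega
  rw [← hinj.tsum_eq]
  · refine tsum_congr fun p => ?_
    simp only [smul_eq_mul]
    rw [pow_add]; ring
  · intro p hp
    rw [Function.mem_support] at hp
    by_cases hpi : p.1 < i
    · exact absurd (by rw [ha _ _ hpi, zero_smul]) hp
    · refine ⟨(p.1 - i, p.2), ?_⟩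
      ext <;> simp <;> omega

/-- continuity of a double power series -/
theorem ds_continuousOn {a : ℕ → ℕ → ℂ} {C ρ r : ℝ} (hb : ∀ m n, ‖a m n‖ ≤ C * ρ ^ (m + n))
    (hC : 0 ≤ C) (hρ : 0 ≤ ρ) (hr : ρ * r < 1) (hr0 : 0 ≤ r) :
    ContinuousOn (fun p : ℂ × ℂ => ds a p.1 p.2) (Metric.closedBall 0 r) := by
  unfold ds
  refine continuousOn_tsum (u := fun p : ℕ × ℕ => C * ((ρ * r) ^ p.1 * (ρ * r) ^ p.2)) ?_ ?_ ?_
  · intro p
    fun_prop
  · exact (summable_geo2 (mul_nonneg hρ hr0) hr).mul_left C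
  · rintro p ⟨x, y⟩ hxy
    rw [mem_closedBall_zero_iff, Prod.norm_def, max_le_iff] at hxy
    exact norm_term_le hb hC hρ hxy.1 hxy.2 p.1 p.2

/-- one variable: a power series which vanishes near `0` is zero -/
theorem pow_zero_of {b : ℕ → ℂ} {C ρ δ : ℝ} (hb : ∀ n, ‖b n‖ ≤ C * ρ ^ n) (hC : 0 ≤ C)
    (hρ : 0 ≤ ρ) (hδ : 0 < δ) (hr : ρ * δ < 1) (h : ∀ y : ℂ, ‖y‖ < δ → ∑' n, b n * y ^ n = 0) :
    ∀ n, b n = 0 := by
  have hs : ∀ y : ℂ, ‖y‖ < δ → Summable fun n => b n * y ^ n := by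
    intro y hy
    have hlt : ρ * ‖y‖ < 1 := lt_of_le_of_lt (mul_le_mul_of_nonneg_left hy.le hρ) hr
    refine Summable.of_norm_bounded (g := fun n => C * (ρ * ‖y‖) ^ n)
      ((summable_geometric_of_lt_one (by positivity) hlt).mul_left C) fun n => ?_
    rw [norm_mul, norm_pow, mul_pow, ← mul_assoc]
    exact mul_le_mul_of_nonneg_right (hb n) (by positivity)
  have hF : HasFPowerSeriesOnBall (fun _ : ℂ => (0 : ℂ)) (FormalMultilinearSeries.ofScalars ℂ b)
      0 (ENNReal.ofReal δ) := by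
    refine ⟨?_, by simpa using hδ, ?_⟩
    · refine ENNReal.le_of_forall_nnreal_lt fun s hs' => ?_
      refine FormalMultilinearSeries.le_radius_of_bound _ C fun n => ?_
      rw [FormalMultilinearSeries.ofScalars_norm]
      have hsδ : (s : ℝ) < δ := by
        have := ENNReal.toReal_strict_mono ENNReal.ofReal_ne_top hs'
        rwa [ENNReal.toReal_ofReal hδ.le, ENNReal.coe_toReal] at this
      have h1 : ρ * s ≤ 1 := by
        have : ρ * s ≤ ρ * δ := mul_le_mul_of_nonneg_left hsδ.le hρ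
        linarith
      calc ‖b n‖ * (s : ℝ) ^ n ≤ C * ρ ^ n * (s : ℝ) ^ n :=
            mul_le_mul_of_nonneg_right (hb n) (by positivity)
        _ = C * (ρ * s) ^ n := by rw [mul_pow]; ring
        _ ≤ C * 1 := mul_le_mul_of_nonneg_left (pow_le_one₀ (by positivity) h1) hC
        _ = C := mul_one C
    · intro y hy
      have hy' : ‖y‖ < δ := by
        rw [Metric.eball_ofReal, Metric.mem_ball, dist_zero_right] at hy
        exact hy
      have h2 := (hs y hy').hasSum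
      rw [h y hy'] at h2
      simpa [FormalMultilinearSeries.ofScalars_apply_eq, smul_eq_mul, mul_comm] using h2
  intro n
  have h0 : HasFPowerSeriesOnBall (fun _ : ℂ => (0 : ℂ)) (0 : FormalMultilinearSeries ℂ ℂ ℂ)
      0 (ENNReal.ofReal δ) := by
    have := (hasFPowerSeriesOnBall_const (𝕜 := ℂ) (c := (0 : ℂ)) (e := (0 : ℂ))).mono
      (r' := ENNReal.ofReal δ) (by simpa using hδ) le_top
    simpa using this
  have heq := HasFPowerSeriesAt.eq_formalMultilinearSeries hF.hasFPowerSeriesAt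
    h0.hasFPowerSeriesAt
  have h3 := congrArg (fun p : FormalMultilinearSeries ℂ ℂ ℂ => p.coeff n) heq
  have h4 : FormalMultilinearSeries.coeff (0 : FormalMultilinearSeries ℂ ℂ ℂ) n = 0 := rfl
  simpa [h4] using h3

theorem ds_zero_left {a : ℕ → ℕ → ℂ} (y : ℂ) : ds a 0 y = ∑' n, a 0 n * y ^ n := by
  unfold ds
  have hinj : Function.Injective fun n : ℕ => ((0, n) : ℕ × ℕ) := by
    intro n n' h
    simpa using h
  rw [← hinj.tsum_eq]
  · refine tsum_congr fun n => ?_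
    simp
  · rintro ⟨m, n⟩ hp
    rw [Function.mem_support] at hp
    by_cases hm : m = 0
    · exact ⟨n, by simp [hm]⟩
    · exact absurd (by simp [zero_pow hm]) hp

theorem ds_tendsto {a : ℕ → ℕ → ℂ} {C ρ δ : ℝ} (hb : ∀ m n, ‖a m n‖ ≤ C * ρ ^ (m + n))
    (hC : 0 ≤ C) (hρ : 0 ≤ ρ) (hδ : 0 < δ) (hr : ρ * δ < 1) {T : ℂ} (hT : ‖T‖ < δ) {s z : ℕ → ℂ}
    (hs : Tendsto s atTop (𝓝 0)) (hz : Tendsto z atTop (𝓝 T)) :
    (∀ᶠ k in atTop, ‖s k‖ < δ) ∧ (∀ᶠ k in atTop, ‖z k‖ < δ) ∧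
      Tendsto (fun k => ds a (s k) (z k)) atTop (𝓝 (ds a 0 T)) := by
  have hev1 : ∀ᶠ k in atTop, ‖s k‖ < δ := by
    have := hs.norm
    rw [norm_zero] at this
    exact this.eventually (gt_mem_nhds hδ)
  have hev2 : ∀ᶠ k in atTop, ‖z k‖ < δ := hz.norm.eventually (gt_mem_nhds hT)
  refine ⟨hev1, hev2, ?_⟩
  have hmem : ((0 : ℂ), T) ∈ Metric.closedBall (0 : ℂ × ℂ) δ := by
    rw [mem_closedBall_zero_iff, Prod.norm_def]
    exact max_le (by simpa using hδ.le) hT.le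
  have ht : Tendsto (fun k => (s k, z k)) atTop
      (𝓝[Metric.closedBall (0 : ℂ × ℂ) δ] ((0 : ℂ), T)) := by
    refine tendsto_nhdsWithin_of_tendsto_nhds_of_eventually_within _ (hs.prodMk_nhds hz) ?_
    filter_upwards [hev1, hev2] with k h1 h2
    rw [mem_closedBall_zero_iff, Prod.norm_def]
    exact max_le h1.le h2.le
  have hcont := ds_continuousOn hb hC hρ hr hδ.le
  generalize hF : (fun p : ℂ × ℂ => ds a p.1 p.2) = F at hcont
  have h1 : Tendsto (fun k => F (s k, z k)) atTop (𝓝 (F (0, T))) :=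
    Tendsto.comp (hcont _ hmem) ht
  have h2 : ∀ x y, F (x, y) = ds a x y := fun x y => by rw [← hF]
  simpa only [h2] using h1

/-- a double power series with zeros `(s_k, z_k) → (0, T)`, `s_k ≠ 0`, for all small `T` is zero -/
theorem ds_zero_of_seq {a : ℕ → ℕ → ℂ} {C ρ δ : ℝ} (hb : ∀ m n, ‖a m n‖ ≤ C * ρ ^ (m + n))
    (hC : 0 ≤ C) (hρ : 0 ≤ ρ) (hδ : 0 < δ) (hr : ρ * δ < 1)
    (h : ∀ T : ℂ, ‖T‖ < δ → ∃ s z : ℕ → ℂ, (∀ k, s k ≠ 0) ∧ Tendsto s atTop (𝓝 0) ∧
      Tendsto z atTop (𝓝 T) ∧ ∀ k, ds a (s k) (z k) = 0) : ∀ m n, a m n = 0 := by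
  intro m
  induction m using Nat.strong_induction_on with
  | _ m ih =>
    have hb' : ∀ i j, ‖a (i + m) j‖ ≤ (C * ρ ^ m) * ρ ^ (i + j) := by
      intro i j
      refine (hb _ _).trans (le_of_eq ?_)
      rw [show i + m + j = m + (i + j) by omega, pow_add]; ring
    have hC' : 0 ≤ C * ρ ^ m := by positivity
    have key : ∀ T : ℂ, ‖T‖ < δ → ds (fun i j => a (i + m) j) 0 T = 0 := by
      intro T hT
      obtain ⟨s, z, hs0, hs, hz, hds⟩ := h T hT
      obtain ⟨hev1, hev2, hlim⟩ := ds_tendsto (a := fun i j => a (i + m) j) hb' hC' hρ hδ hr hT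
        hs hz
      have hz0 : ∀ᶠ k in atTop, ds (fun i j => a (i + m) j) (s k) (z k) = 0 := by
        filter_upwards [hev1, hev2] with k h1 h2
        have e := ds_shift hb hC hρ hr m (fun i j hi => ih i hi j) h1.le h2.le
        rw [hds k] at e
        exact (mul_eq_zero.1 e.symm).resolve_left (pow_ne_zero _ (hs0 k))
      exact tendsto_nhds_unique (hlim.congr' hz0) tendsto_const_nhds
    have := pow_zero_of (b := fun n => a m n) (C := C * ρ ^ m) (ρ := ρ) (δ := δ)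
      (fun n => by simpa using hb' 0 n) hC' hρ hδ hr (fun y hy => by
        have := key y hy
        rw [ds_zero_left] at this
        simpa using this)
    exact this

end Pool.Agent.KDGlue
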